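import Mathlib
import Pool.Agent.H159R3.GGL.Dense

/-!
Groupless projective varieties given by few monomials that are high powers, or by forms of small
Waring rank, are Brody hyperbolic.
-/

namespace Pool.Agent.Results.MP_6f117a_ag.PowerAndWaringVarieties

open MvPolynomial Pool.Agent.H159R3 Pool.Agent.H159R3.GGL

theorem result {n : ℕ} {ι : Type} (F : ι → MvPolynomial (Fin (n + 1)) ℂ)
    (hF : ∀ i, ∃ d, 0 < d ∧ (F i).IsHomogeneous d)
    (hC : (∀ i, PowerSparse (F i)) ∨
      ∀ i, ∀ d, (F i).IsHomogeneous d → Lang.SmallWaring (RingHom.id ℂ) (F i) d) :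
    (∀ v, ¬ TorusCurve F v) ↔ ∀ f, ¬ EntireCurve F f :=
  groupless F hF hC

end Pool.Agent.Results.MP_6f117a_ag.PowerAndWaringVarieties
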